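import Mathlib

/-!
# MP_70625d_co: max-sum matchings need not have a large common ball

For every dimension `d ≥ 2` and every `ε > 0` there is a set of six points of `ℝ^d` with minimum
distance `1` and a max-sum matching of it such that the intersection of the closed balls induced
by its pairs contains no ball of radius `ε`.
-/

namespace Pool.Agent.Results.MP_70625d_co.NoLargeBall

open scoped Classical RealInnerProductSpace

variable {E : Type} [NormedAddCommGroup E] [InnerProductSpace ℝ E]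

/-- `r` is the minimum distance between distinct points of `X`. -/
def IsMinDist (X : Finset E) (r : ℝ) : Prop :=
  IsLeast {t : ℝ | ∃ x ∈ X, ∃ y ∈ X, x ≠ y ∧ t = dist x y} r

/-- `M` is a perfect matching of `X`: a partition of `X` into sets of two elements. -/
def IsPerfectMatching (X : Finset E) (M : Finset (Finset E)) : Prop :=
  (∀ p ∈ M, p.card = 2) ∧ (M : Set (Finset E)).PairwiseDisjoint id ∧ M.biUnion id = X

/-- The length of a pair `{x, y}`: its diameter `|x - y|`. -/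
noncomputable def len (p : Finset E) : ℝ := Metric.diam (p : Set E)

/-- The sum of the lengths of the pairs of `M`. -/
noncomputable def total (M : Finset (Finset E)) : ℝ := ∑ p ∈ M, len p

/-- `M` is a max-sum matching of `X`. -/
def IsMaxSum (X : Finset E) (M : Finset (Finset E)) : Prop :=
  IsPerfectMatching X M ∧ ∀ N, IsPerfectMatching X N → total N ≤ total M

/-- The closed ball induced by a pair `{x, y}`: centre `(x + y) / 2`, radius `|x - y| / 2`. -/
noncomputable def inducedBall (p : Finset E) : Set E :=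
  Metric.closedBall ((1 / 2 : ℝ) • ∑ x ∈ p, x) (len p / 2)

omit [InnerProductSpace ℝ E] in
lemma len_pair (x y : E) : len ({x, y} : Finset E) = dist x y := by
  unfold len
  rw [Finset.coe_pair, Metric.diam_pair]

lemma mem_inducedBall {x y z : E} (h : x ≠ y) (hz : z ∈ inducedBall ({x, y} : Finset E)) :
    ⟪z - x, z - y⟫ ≤ 0 := by
  unfold inducedBall at hz
  rw [Finset.sum_pair h, len_pair, Metric.mem_closedBall, dist_eq_norm, dist_eq_norm] at hz
  have e1 : z - (1 / 2 : ℝ) • (x + y) = (1 / 2 : ℝ) • ((z - x) + (z - y)) := by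
    module
  have e2 : x - y = -((z - x) - (z - y)) := by abel
  rw [e1, e2, norm_neg, norm_smul] at hz
  have h2 : ‖(z - x) + (z - y)‖ ≤ ‖(z - x) - (z - y)‖ := by
    have : ‖(1 / 2 : ℝ)‖ = 1 / 2 := by norm_num
    rw [this] at hz
    linarith
  have h3 : ‖(z - x) + (z - y)‖ ^ 2 ≤ ‖(z - x) - (z - y)‖ ^ 2 :=
    pow_le_pow_left₀ (norm_nonneg _) h2 2
  rw [norm_add_sq_real (z - x) (z - y), norm_sub_sq_real (z - x) (z - y)] at h3
  linarith

/-! ### The plane spanned by two orthonormal vectors -/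

/-- An orthonormal pair. -/
structure ON (e f : E) : Prop where
  he : ‖e‖ = 1
  hf : ‖f‖ = 1
  ef : ⟪e, f⟫ = 0

/-- The point with coordinates `(a, b)`. -/
def pt (e f : E) (q : ℝ × ℝ) : E := q.1 • e + q.2 • f

variable {e f : E}

lemma norm_pt_sq (h : ON e f) (q : ℝ × ℝ) : ‖pt e f q‖ ^ 2 = q.1 ^ 2 + q.2 ^ 2 := by
  unfold pt
  rw [norm_add_sq_real, norm_smul, norm_smul, inner_smul_left, inner_smul_right, h.ef, h.he, h.hf]
  simp

lemma dist_pt_sq (h : ON e f) (q q' : ℝ × ℝ) :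
    dist (pt e f q) (pt e f q') ^ 2 = (q.1 - q'.1) ^ 2 + (q.2 - q'.2) ^ 2 := by
  have : pt e f q - pt e f q' = pt e f (q.1 - q'.1, q.2 - q'.2) := by
    unfold pt; module
  rw [dist_eq_norm, this, norm_pt_sq h]

lemma dist_le (h : ON e f) {q q' : ℝ × ℝ} {c : ℝ} (hc : 0 ≤ c)
    (hq : (q.1 - q'.1) ^ 2 + (q.2 - q'.2) ^ 2 ≤ c ^ 2) : dist (pt e f q) (pt e f q') ≤ c := by
  rw [← dist_pt_sq h] at hq
  exact le_of_sq_le_sq hq hc

lemma le_dist (h : ON e f) {q q' : ℝ × ℝ} {c : ℝ}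
    (hq : c ^ 2 ≤ (q.1 - q'.1) ^ 2 + (q.2 - q'.2) ^ 2) : c ≤ dist (pt e f q) (pt e f q') := by
  rw [← dist_pt_sq h] at hq
  exact le_of_sq_le_sq hq dist_nonneg

lemma inner_pt_left (z : E) (q : ℝ × ℝ) :
    ⟪z, pt e f q⟫ = q.1 * ⟪z, e⟫ + q.2 * ⟪z, f⟫ := by
  unfold pt
  rw [inner_add_right, inner_smul_right, inner_smul_right]

lemma inner_pt_pt (h : ON e f) (q q' : ℝ × ℝ) :
    ⟪pt e f q, pt e f q'⟫ = q.1 * q'.1 + q.2 * q'.2 := by
  rw [inner_pt_left]
  unfold pt
  rw [inner_add_left, inner_add_left, inner_smul_left, inner_smul_left, inner_smul_left,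
    inner_smul_left, real_inner_comm e f, h.ef, real_inner_self_eq_norm_sq,
    real_inner_self_eq_norm_sq, h.he, h.hf]
  simp
  ring

/-- The inequality given by membership in an induced ball. -/
lemma ball_ineq (h : ON e f) {q q' : ℝ × ℝ} {z : E} (hne : pt e f q ≠ pt e f q')
    (hz : z ∈ inducedBall ({pt e f q, pt e f q'} : Finset E)) :
    ‖z‖ ^ 2 - ((q.1 + q'.1) * ⟪z, e⟫ + (q.2 + q'.2) * ⟪z, f⟫) + (q.1 * q'.1 + q.2 * q'.2)
      ≤ 0 := by
  have h1 := mem_inducedBall hne hz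
  rw [inner_sub_left, inner_sub_right, inner_sub_right, inner_pt_pt h, inner_pt_left,
    real_inner_self_eq_norm_sq, real_inner_comm z (pt e f q), inner_pt_left] at h1
  linarith

/-! ### The six points -/

/-- The coordinates of the six points, with parameter `m`. -/
def co (m : ℝ) : Fin 6 → ℝ × ℝ :=
  ![(0, 0), (0, 1), (0, -1), (m ^ 2, -(2 * m)), (-m ^ 2, -(2 * m)), (0, m ^ 2)]

/-- `sqrt (m^4 + 4 m^2)` -/
noncomputable def S1 (m : ℝ) : ℝ := √(m ^ 4 + 4 * m ^ 2)

/-- `sqrt (m^4 + (2 m + 1)^2)` -/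
noncomputable def S2 (m : ℝ) : ℝ := √(m ^ 4 + (2 * m + 1) ^ 2)

/-- The potentials. -/
noncomputable def pot (m : ℝ) : Fin 6 → ℝ :=
  ![S1 m - m ^ 2, S2 m - m ^ 2, S1 m - m ^ 2, m ^ 2, m ^ 2, m ^ 2 + 1 - (S1 m - m ^ 2)]

lemma S1_sq (m : ℝ) : S1 m ^ 2 = m ^ 4 + 4 * m ^ 2 := Real.sq_sqrt (by positivity)

lemma S2_sq (m : ℝ) : S2 m ^ 2 = m ^ 4 + (2 * m + 1) ^ 2 := Real.sq_sqrt (by positivity)

lemma S1_nonneg (m : ℝ) : 0 ≤ S1 m := Real.sqrt_nonneg _

lemma S2_nonneg (m : ℝ) : 0 ≤ S2 m := Real.sqrt_nonneg _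

lemma S1_ge {m : ℝ} (hm : 4 ≤ m) : m ^ 2 + 1 ≤ S1 m := by
  refine le_of_sq_le_sq ?_ (S1_nonneg m)
  rw [S1_sq]
  nlinarith

lemma S1_le {m : ℝ} (hm : 4 ≤ m) : S1 m ≤ m ^ 2 + 2 := by
  refine le_of_sq_le_sq ?_ (by positivity)
  rw [S1_sq]
  nlinarith

lemma S1_le_S2 {m : ℝ} (hm : 4 ≤ m) : S1 m ≤ S2 m := by
  refine le_of_sq_le_sq ?_ (S2_nonneg m)
  rw [S1_sq, S2_sq]
  nlinarith

lemma big {m : ℝ} (hm : 4 ≤ m) : m ^ 4 + (m ^ 2 + 2 * m) ^ 2 ≤ (2 * m ^ 2 - 1) ^ 2 := by
  have h1 : 0 ≤ m ^ 3 * (m - 4) := mul_nonneg (by positivity) (by linarith)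
  have h2 : 0 ≤ m ^ 2 * (m - 4) := mul_nonneg (by positivity) (by linarith)
  have h3 : 0 ≤ m * (m - 4) := mul_nonneg (by linarith) (by linarith)
  nlinarith [mul_nonneg (mul_nonneg (sq_nonneg m) (by linarith : (0:ℝ) ≤ m - 4))
    (by linarith : (0:ℝ) ≤ m - 4)]

lemma pot_lt (h : ON e f) {m : ℝ} (hm : 4 ≤ m) (i j : Fin 6) (hij : i < j) :
    dist (pt e f (co m i)) (pt e f (co m j)) ≤ pot m i + pot m j := by
  have a1 := S1_ge hm
  have a2 := S1_le hm
  have a3 := S1_le_S2 hm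
  have a4 := S1_sq m
  have a5 := S2_sq m
  have a6 := big hm
  have hm2 : 16 ≤ m ^ 2 := by nlinarith
  fin_cases i <;> fin_cases j <;> simp at hij <;>
    (refine dist_le h ?_ ?_ <;> simp [co, pot])
  all_goals first
    | nlinarith
    | (rw [le_abs]; left; nlinarith)

lemma co_far {m : ℝ} (hm : 4 ≤ m) (i j : Fin 6) (hij : i < j) :
    (1:ℝ) ^ 2 ≤ ((co m i).1 - (co m j).1) ^ 2 + ((co m i).2 - (co m j).2) ^ 2 := by
  have hm2 : 16 ≤ m ^ 2 := by nlinarith
  fin_cases i <;> fin_cases j <;> simp at hij <;> simp [co]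
  all_goals first
    | nlinarith
    | (rw [le_abs]; left; nlinarith)
    | (rw [le_abs]; right; nlinarith)

lemma far (h : ON e f) {m : ℝ} (hm : 4 ≤ m) {i j : Fin 6} (hij : i ≠ j) :
    1 ≤ dist (pt e f (co m i)) (pt e f (co m j)) := by
  rcases lt_or_gt_of_ne hij with h1 | h1
  · exact le_dist h (co_far hm i j h1)
  · rw [dist_comm]; exact le_dist h (co_far hm j i h1)

lemma inj (h : ON e f) {m : ℝ} (hm : 4 ≤ m) :
    Function.Injective (fun i : Fin 6 => pt e f (co m i)) := by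
  intro i j hij
  by_contra hne
  have := far h hm hne
  simp only at hij
  rw [hij, dist_self] at this
  linarith

lemma pot_ne (h : ON e f) {m : ℝ} (hm : 4 ≤ m) {i j : Fin 6} (hij : i ≠ j) :
    dist (pt e f (co m i)) (pt e f (co m j)) ≤ pot m i + pot m j := by
  rcases lt_or_gt_of_ne hij with h1 | h1
  · exact pot_lt h hm i j h1
  · rw [dist_comm, add_comm]; exact pot_lt h hm j i h1

/-- The six points. -/
noncomputable def X (e f : E) (m : ℝ) : Finset E := Finset.univ.image fun i : Fin 6 => pt e f (co m i)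

lemma card_X (h : ON e f) {m : ℝ} (hm : 4 ≤ m) : (X e f m).card = 6 := by
  unfold X
  rw [Finset.card_image_of_injective _ (inj h hm)]
  simp

/-- The matching of the indices. -/
def M0 : Finset (Finset (Fin 6)) := {{0, 3}, {1, 4}, {2, 5}}

/-- The matching. -/
noncomputable def M (e f : E) (m : ℝ) : Finset (Finset E) :=
  M0.image fun p => p.image fun i : Fin 6 => pt e f (co m i)

lemma perfect (h : ON e f) {m : ℝ} (hm : 4 ≤ m) : IsPerfectMatching (X e f m) (M e f m) := by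
  have hi := inj h hm
  refine ⟨?_, ?_, ?_⟩
  · intro p hp
    simp only [M, Finset.mem_image] at hp
    obtain ⟨q, hq, rfl⟩ := hp
    rw [Finset.card_image_of_injective _ hi]
    have : ∀ q ∈ M0, q.card = 2 := by decide
    exact this q hq
  · intro p hp p' hp' hne
    simp only [M, Finset.coe_image, Set.mem_image, Finset.mem_coe] at hp hp'
    obtain ⟨q, hq, rfl⟩ := hp
    obtain ⟨q', hq', rfl⟩ := hp'
    have hne' : q ≠ q' := fun h => hne (by rw [h])
    have : ∀ q ∈ M0, ∀ q' ∈ M0, q ≠ q' → Disjoint q q' := by decide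
    simp only [Function.onFun, id]
    exact (Finset.disjoint_image hi).mpr (this q hq q' hq' hne')
  · have : M0.biUnion id = Finset.univ := by decide
    ext x
    simp only [M, X, Finset.mem_biUnion, Finset.mem_image, id, Finset.mem_univ, true_and]
    constructor
    · rintro ⟨p, ⟨q, hq, rfl⟩, hx⟩
      rw [Finset.mem_image] at hx
      obtain ⟨i, -, rfl⟩ := hx
      exact ⟨i, rfl⟩
    · rintro ⟨i, rfl⟩
      have hi' : i ∈ M0.biUnion id := by rw [this]; exact Finset.mem_univ i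
      rw [Finset.mem_biUnion] at hi'
      obtain ⟨q, hq, hqi⟩ := hi'
      exact ⟨_, ⟨q, hq, rfl⟩, Finset.mem_image.mpr ⟨i, hqi, rfl⟩⟩

lemma total_M (h : ON e f) {m : ℝ} (hm : 4 ≤ m) : ∑ i, pot m i ≤ total (M e f m) := by
  have hi := inj h hm
  have h1 : total (M e f m) = ∑ q ∈ M0, len (q.image fun i : Fin 6 => pt e f (co m i)) := by
    unfold total M
    rw [Finset.sum_image]
    intro q _ q' _ hqq
    exact Finset.image_injective hi hqq
  have h2 : ∑ q ∈ M0, len (q.image fun i : Fin 6 => pt e f (co m i)) =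
      dist (pt e f (co m 0)) (pt e f (co m 3)) + dist (pt e f (co m 1)) (pt e f (co m 4)) +
      dist (pt e f (co m 2)) (pt e f (co m 5)) := by
    unfold M0
    rw [Finset.sum_insert (by decide), Finset.sum_insert (by decide), Finset.sum_singleton]
    simp only [Finset.image_insert, Finset.image_singleton, len_pair]
    ring
  have d1 : S1 m ≤ dist (pt e f (co m 0)) (pt e f (co m 3)) := by
    apply le_dist h
    rw [S1_sq]; simp [co]; nlinarith
  have d2 : S2 m ≤ dist (pt e f (co m 1)) (pt e f (co m 4)) := by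
    apply le_dist h
    rw [S2_sq]; simp [co]; nlinarith
  have d3 : m ^ 2 + 1 ≤ dist (pt e f (co m 2)) (pt e f (co m 5)) := by
    apply le_dist h
    simp [co]; nlinarith
  rw [h1, h2]
  simp only [Fin.sum_univ_six, pot]
  simp
  linarith

lemma total_le (h : ON e f) {m : ℝ} (hm : 4 ≤ m) (N : Finset (Finset E))
    (hN : IsPerfectMatching (X e f m) N) : total N ≤ ∑ i, pot m i := by
  obtain ⟨c1, c2, c3⟩ := hN
  have hi := inj h hm
  set P : Fin 6 → E := fun i => pt e f (co m i) with hP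
  set w : E → ℝ := Function.extend P (pot m) 0 with hw
  have hwP : ∀ i, w (P i) = pot m i := fun i => hi.extend_apply _ _ i
  have h1 : ∀ p ∈ N, len p ≤ ∑ x ∈ p, w x := by
    intro p hp
    obtain ⟨x, y, hxy, rfl⟩ := Finset.card_eq_two.mp (c1 p hp)
    have hx : x ∈ X e f m := by
      rw [← c3, Finset.mem_biUnion]; exact ⟨_, hp, by simp⟩
    have hy : y ∈ X e f m := by
      rw [← c3, Finset.mem_biUnion]; exact ⟨_, hp, by simp⟩
    simp only [X, Finset.mem_image, Finset.mem_univ, true_and] at hx hy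
    obtain ⟨i, rfl⟩ := hx
    obtain ⟨j, rfl⟩ := hy
    rw [len_pair, Finset.sum_pair hxy]
    have hij : i ≠ j := fun h => hxy (by rw [h])
    have := pot_ne h hm hij
    have e1 := hwP i
    have e2 := hwP j
    simp only [hP] at e1 e2
    rw [e1, e2]
    exact this
  calc total N = ∑ p ∈ N, len p := rfl
    _ ≤ ∑ p ∈ N, ∑ x ∈ p, w x := Finset.sum_le_sum h1
    _ = ∑ x ∈ N.biUnion id, w x := (Finset.sum_biUnion c2).symm
    _ = ∑ x ∈ X e f m, w x := by rw [c3]
    _ = ∑ i, pot m i := by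
      unfold X
      rw [Finset.sum_image (fun i _ j _ hij => hi hij)]
      exact Finset.sum_congr rfl fun i _ => hwP i

lemma maxSum (h : ON e f) {m : ℝ} (hm : 4 ≤ m) : IsMaxSum (X e f m) (M e f m) :=
  ⟨perfect h hm, fun N hN => (total_le h hm N hN).trans (total_M h hm)⟩

lemma minDist (h : ON e f) {m : ℝ} (hm : 4 ≤ m) : IsMinDist (X e f m) 1 := by
  have hi := inj h hm
  constructor
  · refine ⟨pt e f (co m 0), Finset.mem_image.mpr ⟨0, Finset.mem_univ _, rfl⟩,
      pt e f (co m 1), Finset.mem_image.mpr ⟨1, Finset.mem_univ _, rfl⟩,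
      fun hc => absurd (hi hc) (by decide), ?_⟩
    apply le_antisymm (far h hm (by decide))
    apply dist_le h (by norm_num)
    simp [co]
  · rintro t ⟨x, hx, y, hy, hxy, rfl⟩
    simp only [X, Finset.mem_image, Finset.mem_univ, true_and] at hx hy
    obtain ⟨i, rfl⟩ := hx
    obtain ⟨j, rfl⟩ := hy
    exact far h hm fun hc => hxy (by rw [hc])

lemma no_ball (h : ON e f) {m : ℝ} (hm : 4 ≤ m) {ε : ℝ} (hε : 0 < ε) (hmε : 7 < m * ε) (z : E) :
    ¬ Metric.ball z ε ⊆ ⋂ p ∈ M e f m, inducedBall p := by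
  intro hsub
  have hi := inj h hm
  have hmem : ∀ q ∈ M0, ∀ w ∈ Metric.ball z ε,
      w ∈ inducedBall (q.image fun i : Fin 6 => pt e f (co m i)) := by
    intro q hq w hw
    have := hsub hw
    rw [Set.mem_iInter₂] at this
    exact this _ (Finset.mem_image.mpr ⟨q, hq, rfl⟩)
  have key : ∀ i j : Fin 6, i ≠ j → ({i, j} : Finset (Fin 6)) ∈ M0 → ∀ w ∈ Metric.ball z ε,
      ‖w‖ ^ 2 - (((co m i).1 + (co m j).1) * ⟪w, e⟫ + ((co m i).2 + (co m j).2) * ⟪w, f⟫)
        + ((co m i).1 * (co m j).1 + (co m i).2 * (co m j).2) ≤ 0 := by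
    intro i j hij hM w hw
    have := hmem _ hM w hw
    simp only [Finset.image_insert, Finset.image_singleton] at this
    exact ball_ineq h (fun hc => hij (hi hc)) this
  have hball : ∀ t : ℝ, |t| < ε → z + t • e ∈ Metric.ball z ε := by
    intro t ht
    rw [Metric.mem_ball, dist_eq_norm]
    simpa [norm_smul, h.he] using ht
  have in1 : ∀ t : ℝ, ⟪z + t • e, e⟫ = ⟪z, e⟫ + t := by
    intro t
    rw [inner_add_left, inner_smul_left, real_inner_self_eq_norm_sq, h.he]
    simp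
  have in2 : ∀ t : ℝ, ⟪z + t • e, f⟫ = ⟪z, f⟫ := by
    intro t
    rw [inner_add_left, inner_smul_left, h.ef]
    simp
  have b1 := key 0 3 (by decide) (by decide) _ (hball (-(ε / 2)) (by
    rw [abs_neg, abs_of_pos (by linarith)]; linarith))
  have b2 := key 1 4 (by decide) (by decide) _ (hball (ε / 2) (by
    rw [abs_of_pos (by linarith)]; linarith))
  have b3 := key 2 5 (by decide) (by decide) _ (hball 0 (by simpa using hε))
  rw [in1, in2] at b1 b2 b3
  simp [co] at b1 b2 b3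
  have n2 : ⟪z, f⟫ ^ 2 ≤ ‖z + (ε / 2) • e‖ ^ 2 := by
    have := abs_real_inner_le_norm (z + (ε / 2) • e) f
    rw [in2, h.hf, mul_one] at this
    rw [← sq_abs ⟪z, f⟫]
    exact pow_le_pow_left₀ (abs_nonneg _) this 2
  have n3 : ⟪z, f⟫ ^ 2 ≤ ‖z‖ ^ 2 := by
    have := abs_real_inner_le_norm z f
    rw [h.hf, mul_one] at this
    rw [← sq_abs ⟪z, f⟫]
    exact pow_le_pow_left₀ (abs_nonneg _) this 2
  have n1 : 0 ≤ ‖z + -((ε / 2) • e)‖ ^ 2 := sq_nonneg _
  set u := ⟪z, e⟫
  set v := ⟪z, f⟫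
  have hv : -1 ≤ v := by
    by_contra hv
    push Not at hv
    nlinarith [sq_nonneg (m)]
  have q1 : 0 ≤ m ^ 2 * (u - ε / 2) - 2 * m * v := by nlinarith
  have q2 : m ^ 2 * (u + ε / 2) + 2 * m * v ≤ 2 * m + 1 / 4 := by
    nlinarith [sq_nonneg (v - 1 / 2)]
  have q3 : m ^ 2 * ε ≤ 6 * m + 1 / 4 := by nlinarith
  have q4 : 7 * m < m ^ 2 * ε := by nlinarith
  linarith

/-- For every `d ≥ 2` and every `ε > 0` there are six points in `ℝ^d` with minimum distance `1`
and a max-sum matching of them such that the intersection of the induced closed balls contains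
no (open) ball of radius `ε`. In particular Q1 is disproved. -/
theorem result :
    (∀ d : ℕ, 2 ≤ d → ∀ ε : ℝ, 0 < ε →
      ∃ (X : Finset (EuclideanSpace ℝ (Fin d))) (M : Finset (Finset (EuclideanSpace ℝ (Fin d)))),
        X.card = 6 ∧ IsMinDist X 1 ∧ IsMaxSum X M ∧
          ∀ z, ¬ Metric.ball z ε ⊆ ⋂ p ∈ M, inducedBall p) ∧
    ¬ ∀ d : ℕ, 1 ≤ d → ∃ ε : ℝ, 0 < ε ∧
      ∀ (X : Finset (EuclideanSpace ℝ (Fin d))) (r : ℝ), Even X.card → IsMinDist X r →
        ∀ M : Finset (Finset (EuclideanSpace ℝ (Fin d))), IsMaxSum X M →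
          ∃ z, Metric.closedBall z (ε * r) ⊆ ⋂ p ∈ M, inducedBall p := by
  have main : ∀ d : ℕ, 2 ≤ d → ∀ ε : ℝ, 0 < ε →
      ∃ (X : Finset (EuclideanSpace ℝ (Fin d))) (M : Finset (Finset (EuclideanSpace ℝ (Fin d)))),
        X.card = 6 ∧ IsMinDist X 1 ∧ IsMaxSum X M ∧
          ∀ z, ¬ Metric.ball z ε ⊆ ⋂ p ∈ M, inducedBall p := by
    intro d hd ε hε
    have h : ON (EuclideanSpace.single (⟨0, by omega⟩ : Fin d) (1 : ℝ))
        (EuclideanSpace.single (⟨1, by omega⟩ : Fin d) (1 : ℝ)) := by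
      refine ⟨by simp, by simp, ?_⟩
      rw [EuclideanSpace.inner_single_left]
      simp
    set m : ℝ := max 4 (8 / ε) with hm
    have hm4 : 4 ≤ m := le_max_left _ _
    have hmε : 7 < m * ε := by
      have h1 : 8 / ε ≤ m := le_max_right _ _
      have h2 : 8 / ε * ε = 8 := by field_simp
      nlinarith
    exact ⟨X _ _ m, M _ _ m, card_X h hm4, minDist h hm4, maxSum h hm4,
      fun z => no_ball h hm4 hε hmε z⟩
  refine ⟨main, fun hall => ?_⟩
  obtain ⟨ε, hε, h⟩ := hall 2 (by norm_num)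
  obtain ⟨X, M, h1, h2, h3, h4⟩ := main 2 le_rfl ε hε
  obtain ⟨z, hz⟩ := h X 1 (by rw [h1]; decide) h2 M h3
  rw [mul_one] at hz
  exact h4 z (Metric.ball_subset_closedBall.trans hz)

end Pool.Agent.Results.MP_70625d_co.NoLargeBall
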